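import Pool.Agent.H240.GU.Def
import Pool.Graph.R_seed8.Y262.EG.Pre

/-!
# Functions which come from a collar (project GU of helper240)
-/

set_option autoImplicit false
set_option linter.unusedSectionVars false

open Set Filter Topology MeasureTheory
open scoped ContDiff ComplexConjugate Real

noncomputable section

namespace Pool.Agent.H127.GU

open Pool.Agent.Y262.EG Pool.Agent.H240.AL Pool.Agent.H240.GU
open Pool.Agent.H240.NL (cont_of)

theorem mem_Sx_add {x0 δ : ℝ} {z : ℂ} (hz : z ∈ Sx x0 δ) (n : ℤ) :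
    z + n * (2 * π * Complex.I) ∈ Sx x0 δ := by
  have h : (z + n * (2 * π * Complex.I)).re = z.re := by
    simp
  unfold Sx at hz ⊢
  rw [mem_ofPred_eq, h]
  exact hz

theorem mem_Sx_two {x0 δ : ℝ} {z : ℂ} (hz : z ∈ Sx x0 δ) : z + 2 * π * Complex.I ∈ Sx x0 δ := by
  have := mem_Sx_add hz 1
  rwa [Int.cast_one, one_mul] at this

theorem Sx_open (x0 δ : ℝ) : IsOpen (Sx x0 δ) :=
  isOpen_lt (by fun_prop) continuous_const

/-- periodicity for all integers -/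
theorem per_all {x0 δ : ℝ} {w : ℂ → ℝ} (hper : ∀ z ∈ Sx x0 δ, w (z + 2 * π * Complex.I) = w z)
    {z : ℂ} (hz : z ∈ Sx x0 δ) (n : ℤ) : w (z + n * (2 * π * Complex.I)) = w z := by
  induction n using Int.induction_on with
  | zero =>
    rw [Int.cast_zero, zero_mul, add_zero]
  | succ i ih =>
    have h1 := hper _ (mem_Sx_add hz i)
    have e : z + ((i : ℤ) : ℂ) * (2 * π * Complex.I) + 2 * π * Complex.I =
        z + (((i : ℤ) + 1 : ℤ) : ℂ) * (2 * π * Complex.I) := by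
      push_cast
      ring
    rw [e] at h1
    rw [h1]
    exact ih
  | pred i ih =>
    have h1 := hper _ (mem_Sx_add hz (-(i : ℤ) - 1))
    have e : z + ((-(i : ℤ) - 1 : ℤ) : ℂ) * (2 * π * Complex.I) + 2 * π * Complex.I =
        z + ((-(i : ℤ) : ℤ) : ℂ) * (2 * π * Complex.I) := by
      push_cast
      ring
    rw [e] at h1
    rw [← h1]
    exact ih

section main

variable {M P : Type} [MetricSpace M] [CompactSpace M] [MetricSpace P] [CompactSpace P]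
  {Ω : Set ℂ} {φ : ℂ → ℝ} {pr : ℂ → M} {q : Y → P} {x0 δ : ℝ}

/-- a local isometry over the surface -/
theorem loc (hUT : IsUT Ω φ pr q) {z w : ℂ} (hz : z ∈ Ω) (hw : w ∈ Ω) (h : pr z = pr w) :
    ∃ (r : ℝ) (γ : ℂ → ℂ), 0 < r ∧ Metric.ball z r ⊆ Ω ∧
      DifferentiableOn ℂ γ (Metric.ball z r) ∧ γ z = w ∧
      ∀ ζ ∈ Metric.ball z r, γ ζ ∈ Ω ∧ pr (γ ζ) = pr ζ ∧ deriv γ ζ ≠ 0 ∧
        φ (γ ζ) + Real.log ‖deriv γ ζ‖ = φ ζ := by
  obtain ⟨θ', r, γ, h1, h2, h3, h4, h5, -⟩ := hUT.deck z hz w hw h 0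
  exact ⟨r, γ, h1, h2, h3, h4, h5⟩

theorem loc_cont {z : ℂ} {r : ℝ} {γ : ℂ → ℂ} (hr : 0 < r)
    (hγ : DifferentiableOn ℂ γ (Metric.ball z r)) : ContinuousAt γ z :=
  (hγ.differentiableAt (Metric.ball_mem_nhds z hr)).continuousAt

theorem phi_per (hUT : IsUT Ω φ pr q) (hCo : Co Ω pr x0 δ) {z : ℂ} (hz : z ∈ Sx x0 δ) :
    φ (z + 2 * π * Complex.I) = φ z := by
  have hw := mem_Sx_two hz
  have hpr : pr z = pr (z + 2 * π * Complex.I) :=
    (hCo.per z _ hz hw).2 ⟨1, by rw [Int.cast_one, one_mul]⟩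
  obtain ⟨r, γ, hr, -, hγ, hγz, h5⟩ := loc hUT (hCo.sub z hz) (hCo.sub _ hw) hpr
  have hc := loc_cont hr hγ
  have e1 : ∀ᶠ ζ in 𝓝 z, γ ζ ∈ Sx x0 δ := by
    apply hc
    rw [hγz]
    exact (Sx_open x0 δ).mem_nhds hw
  have e2 : ∀ᶠ ζ in 𝓝 z, ζ ∈ Sx x0 δ := (Sx_open x0 δ).mem_nhds hz
  have e3 : ∀ᶠ ζ in 𝓝 z, ζ ∈ Metric.ball z r := Metric.ball_mem_nhds z hr
  have e4 : ∀ᶠ ζ in 𝓝 z, ‖γ ζ - ζ - 2 * π * Complex.I‖ < 2 * π := by
    have hc2 : ContinuousAt (fun ζ => ‖γ ζ - ζ - 2 * π * Complex.I‖) z :=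
      ((hc.sub continuousAt_id).sub continuousAt_const).norm
    apply hc2.eventually_lt continuousAt_const
    have e : γ z - z - 2 * π * Complex.I = 0 := by
      rw [hγz]
      ring
    show ‖γ z - z - 2 * π * Complex.I‖ < 2 * π
    rw [e, norm_zero]
    positivity
  have e5 : γ =ᶠ[𝓝 z] fun ζ => ζ + 2 * π * Complex.I := by
    filter_upwards [e1, e2, e3, e4] with ζ a1 a2 a3 a4
    obtain ⟨n, hn⟩ := (hCo.per ζ (γ ζ) a2 a1).1 (h5 ζ a3).2.1.symm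
    have b1 : γ ζ - ζ - 2 * π * Complex.I = ((n - 1 : ℤ) : ℂ) * (2 * π * Complex.I) := by
      rw [hn]
      push_cast
      ring
    rw [b1, norm_mul, Complex.norm_intCast] at a4
    have b2 : ‖(2 * π * Complex.I : ℂ)‖ = 2 * π := by
      rw [norm_mul, Complex.norm_I, mul_one, norm_mul, Complex.norm_real, Complex.norm_ofNat,
        Real.norm_of_nonneg Real.pi_pos.le]
    rw [b2] at a4
    have b3 : |((n - 1 : ℤ) : ℝ)| < 1 := by
      have : (0 : ℝ) < 2 * π := by positivity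
      nlinarith
    have b4 : |n - 1| < 1 := by exact_mod_cast b3
    have b5 : n = 1 := by
      have := Int.abs_lt_one_iff.1 b4
      omega
    rw [hn, b5, Int.cast_one, one_mul]
  have h6 : deriv γ z = 1 := by
    rw [e5.deriv_eq]
    simp
  have h7 := (h5 z (Metric.mem_ball_self hr)).2.2.2
  rw [hγz, h6, norm_one, Real.log_one, add_zero] at h7
  exact h7

/-- the value on the collar -/
theorem cx_eq (hCo : Co Ω pr x0 δ) {w : ℂ → ℝ} (hw : Cw x0 δ w) {z : ℂ} (hz : z ∈ Sx x0 δ) :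
    cx pr x0 δ w (pr z) = w z := by
  have h : ∃ z' : ℂ, |z'.re - x0| < δ ∧ pr z' = pr z := ⟨z, hz, rfl⟩
  unfold cx
  rw [dif_pos h]
  obtain ⟨h1, h2⟩ := h.choose_spec
  obtain ⟨n, hn⟩ := (hCo.per z _ hz h1).1 h2.symm
  rw [hn]
  exact per_all hw.per hz n

theorem cx_out {w : ℂ → ℝ} {x : M} (hx : x ∉ pr '' Sx x0 δ) : cx pr x0 δ w x = 0 := by
  unfold cx
  rw [dif_neg]
  rintro ⟨z, hz, rfl⟩
  exact hx ⟨z, hz, rfl⟩

/-- representatives in one period -/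
theorem repr (hCo : Co Ω pr x0 δ) {z : ℂ} (hz : z ∈ Sx x0 δ) :
    ∃ z' ∈ Sx x0 δ, pr z' = pr z ∧ z'.re = z.re ∧ z'.im ∈ Icc (0 : ℝ) (2 * π) := by
  have hp : (0 : ℝ) < 2 * π := by positivity
  set n : ℤ := ⌊z.im / (2 * π)⌋ with hn
  have h1 := mem_Sx_add hz (-n)
  refine ⟨_, h1, ?_, ?_, ?_⟩
  · exact ((hCo.per z _ hz h1).2 ⟨-n, rfl⟩).symm
  · simp
  · have e : (z + ((-n : ℤ) : ℂ) * (2 * π * Complex.I)).im = z.im - n * (2 * π) := by
      simp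
      ring
    rw [e]
    have h2 := Int.floor_le (z.im / (2 * π))
    have h3 := Int.lt_floor_add_one (z.im / (2 * π))
    rw [← hn] at h2 h3
    rw [le_div_iff₀ hp] at h2
    rw [div_lt_iff₀ hp] at h3
    constructor
    · linarith
    · linarith

theorem cx_zero (hUT : IsUT Ω φ pr q) (hCo : Co Ω pr x0 δ) {w : ℂ → ℝ} (hw : Cw x0 δ w) {z : ℂ}
    (hz : z ∈ Ω) (hzn : pr z ∉ pr '' Sx x0 δ) :
    (fun ζ => cx pr x0 δ w (pr ζ)) =ᶠ[𝓝 z] fun _ => 0 := by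
  obtain ⟨r, hr, hr2⟩ := hw.sup
  have hr0 : max r 0 < δ := max_lt hr hCo.δp
  set S : Set ℂ := Icc (x0 - max r 0) (x0 + max r 0) ×ℂ Icc (0 : ℝ) (2 * π) with hS
  have hSc : IsCompact S := isCompact_Icc.reProdIm isCompact_Icc
  have hSS : S ⊆ Sx x0 δ := by
    intro ζ hζ
    rw [hS, Complex.mem_reProdIm, mem_Icc] at hζ
    show |ζ.re - x0| < δ
    rw [abs_lt]
    constructor
    · linarith [hζ.1.1]
    · linarith [hζ.1.2]
  have hK : IsClosed (pr '' S) :=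
    (hSc.image_of_continuousOn (hUT.contp.mono (hSS.trans fun ζ hζ => hCo.sub ζ hζ))).isClosed
  have hzK : pr z ∈ (pr '' S)ᶜ := fun h => hzn (image_mono hSS h)
  have h1 : ∀ᶠ ζ in 𝓝 z, pr ζ ∈ (pr '' S)ᶜ :=
    (hUT.contp.continuousAt (hUT.opn.mem_nhds hz)).eventually (hK.isOpen_compl.mem_nhds hzK)
  filter_upwards [h1] with ζ hζ
  by_cases h2 : pr ζ ∈ pr '' Sx x0 δ
  · obtain ⟨ζ', h3, h4⟩ := h2
    obtain ⟨z', h5, h6, h7, h8⟩ := repr hCo h3
    rw [← h4, ← h6, cx_eq hCo hw h5]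
    apply hr2 z' h5
    by_contra hc
    rw [not_le] at hc
    apply hζ
    refine ⟨z', ?_, by rw [h6, h4]⟩
    rw [hS, Complex.mem_reProdIm, mem_Icc]
    have h9 : |z'.re - x0| ≤ max r 0 := hc.le.trans (le_max_left _ _)
    rw [abs_le] at h9
    exact ⟨⟨by linarith [h9.1], by linarith [h9.2]⟩, h8⟩
  · exact cx_out h2

theorem cx_smooth (hUT : IsUT Ω φ pr q) (hCo : Co Ω pr x0 δ) {w : ℂ → ℝ} (hw : Cw x0 δ w) :
    ContDiffOn ℝ ∞ (fun z => cx pr x0 δ w (pr z)) Ω := by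
  intro z hz
  apply ContDiffAt.contDiffWithinAt
  by_cases h : pr z ∈ pr '' Sx x0 δ
  · obtain ⟨z', hz', hzz⟩ := h
    obtain ⟨r, γ, hr, -, hγ, hγz, h5⟩ := loc hUT hz (hCo.sub _ hz') hzz.symm
    have hc := loc_cont hr hγ
    have e1 : ∀ᶠ ζ in 𝓝 z, γ ζ ∈ Sx x0 δ := by
      apply hc
      rw [hγz]
      exact (Sx_open x0 δ).mem_nhds hz'
    have e3 : ∀ᶠ ζ in 𝓝 z, ζ ∈ Metric.ball z r := Metric.ball_mem_nhds z hr
    have e4 : (fun ζ => cx pr x0 δ w (pr ζ)) =ᶠ[𝓝 z] fun ζ => w (γ ζ) := by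
      filter_upwards [e1, e3] with ζ a1 a3
      rw [← (h5 ζ a3).2.1, cx_eq hCo hw a1]
    refine ContDiffAt.congr_of_eventuallyEq ?_ e4
    have h6 : ContDiffAt ℂ ∞ γ z :=
      (hγ.contDiffOn Metric.isOpen_ball).contDiffAt (Metric.ball_mem_nhds z hr)
    have h7 : ContDiffAt ℝ ∞ γ z := h6.restrict_scalars ℝ
    have h8 : ContDiffAt ℝ ∞ w (γ z) := by
      rw [hγz]
      exact hw.sm.contDiffAt ((Sx_open x0 δ).mem_nhds hz')
    exact h8.comp z h7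
  · exact contDiffAt_const.congr_of_eventuallyEq (cx_zero hUT hCo hw hz h)

end main

theorem stCx : StCx := by
  intro M P _ _ _ _ Ω φ pr q x0 δ hUT hCo
  refine ⟨fun z w hz hw h => (tInv M P Ω φ pr q hUT z hz w hw h).1,
    fun z hz => phi_per hUT hCo hz, fun w hw => ?_⟩
  have hs := cx_smooth hUT hCo hw
  exact ⟨hs, cont_of hUT hs.continuousOn, fun z hz => cx_eq hCo hw hz, fun x hx => cx_out hx,
    fun z hz h => cx_zero hUT hCo hw hz h⟩

end Pool.Agent.H127.GU
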